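import Mathlib
import Pool.Agent.X215.RelCof

/-!
There are a maximal ideal `I` on `ω` with `cof I = 𝔠` and an ideal `J ⊆ I` with
`cof_J I = ω₁`.
-/

namespace Pool.Agent.Results.MP_f21612_lc.MaximalIdeal

open Set Cardinal

/-- A proper ideal on `ω` containing all finite sets. -/
structure IsProperIdeal (I : Set (Set ℕ)) : Prop where
  subset : ∀ A ∈ I, ∀ B, B ⊆ A → B ∈ I
  union : ∀ A ∈ I, ∀ B ∈ I, A ∪ B ∈ I
  univ : (Set.univ : Set ℕ) ∉ I
  finite : ∀ A : Set ℕ, A.Finite → A ∈ I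

/-- An ideal on `ω`; by convention `{∅}` is also counted. -/
def IsIdeal (I : Set (Set ℕ)) : Prop := IsProperIdeal I ∨ I = {∅}

/-- A maximal ideal: maximal under inclusion among the ideals on `ω`. -/
def IsMaximalIdeal (I : Set (Set ℕ)) : Prop :=
  IsIdeal I ∧ ∀ I', IsIdeal I' → I ⊆ I' → I' = I

/-- The cofinality of `I`. -/
noncomputable def cof (I : Set (Set ℕ)) : Cardinal.{0} :=
  sInf {κ | ∃ ℬ : Set (Set ℕ), ℬ ⊆ I ∧ (∀ A ∈ I, ∃ B ∈ ℬ, A ⊆ B) ∧ #ℬ = κ}

/-- The relative cofinality `cof_J(I)`. -/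
noncomputable def cofRel (J I : Set (Set ℕ)) : Cardinal.{0} :=
  sInf {κ | ∃ 𝒜 : Set (Set ℕ), 𝒜 ⊆ I ∧ (∀ A ∈ I, ∃ B ∈ 𝒜, A \ B ∈ J) ∧ #𝒜 = κ}

open Pool.Agent.X215.RelCof in
/-- There are a maximal ideal `I` on `ω` with `cof I = 𝔠` and a (proper, free) ideal `J ⊆ I` with
`cof_J I = ω₁`. -/
theorem result : ∃ I J : Set (Set ℕ), IsMaximalIdeal I ∧ IsIdeal J ∧ IsProperIdeal J ∧ J ⊆ I ∧
    cof I = 𝔠 ∧ cofRel J I = ℵ₁ := by
  have hI : IsProperIdeal Pool.Agent.X215.RelCof.I := by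
    refine ⟨?_, ?_, ?_, ?_⟩
    · intro A hA B hBA
      exact Filter.mem_of_superset hA (Set.compl_subset_compl.2 hBA)
    · intro A hA B hB
      show (A ∪ B)ᶜ ∈ q
      rw [Set.compl_union]
      exact Filter.inter_mem hA hB
    · intro h
      have h1 : (Set.univ : Set ℕ)ᶜ ∈ q := h
      rw [Set.compl_univ] at h1
      exact q.empty_notMem h1
    · intro A hA
      exact compl_mem_q_of_J0 (cand_J0.fin A hA)
  have hJ : IsProperIdeal Jd := by
    refine ⟨?_, ?_, ?_, ?_⟩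
    · intro A hA B hBA a
      exact Filter.mem_of_superset (hA a) (Set.compl_subset_compl.2 hBA)
    · intro A hA B hB a
      rw [Set.compl_union]
      exact Filter.inter_mem (hA a) (hB a)
    · intro h
      exact hI.univ (Jd_subset_I h)
    · intro A hA a
      exact compl_mem_qY_of_J0 (cand_J0.fin A hA)
  have hmax : IsMaximalIdeal Pool.Agent.X215.RelCof.I := by
    refine ⟨Or.inl hI, fun I' hI' hsub => ?_⟩
    apply Set.Subset.antisymm _ hsub
    rcases hI' with hI' | rfl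
    · intro A hA
      by_contra hAI
      have h1 : A ∈ q := Ultrafilter.compl_notMem_iff.1 hAI
      have h2 : Aᶜ ∈ Pool.Agent.X215.RelCof.I := by
        show Aᶜᶜ ∈ q
        rwa [compl_compl]
      apply hI'.univ
      rw [← Set.union_compl_self A]
      exact hI'.union A hA _ (hsub h2)
    · exfalso
      have h1 : ({0} : Set ℕ) ∈ Pool.Agent.X215.RelCof.I := hI.finite _ (Set.finite_singleton 0)
      have h2 := hsub h1
      rw [Set.mem_singleton_iff] at h2
      exact Set.singleton_ne_empty 0 h2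
  refine ⟨Pool.Agent.X215.RelCof.I, Jd, hmax, Or.inl hJ, hJ, Jd_subset_I, ?_, ?_⟩
  · -- the cofinality
    apply le_antisymm
    · have h1 : cof Pool.Agent.X215.RelCof.I ≤ #Pool.Agent.X215.RelCof.I :=
        csInf_le' ⟨_, subset_rfl, fun A hA => ⟨A, hA, subset_rfl⟩, rfl⟩
      refine h1.trans ((mk_set_le _).trans ?_)
      rw [mk_set_nat]
    · have hne : {κ | ∃ ℬ : Set (Set ℕ), ℬ ⊆ Pool.Agent.X215.RelCof.I ∧
          (∀ A ∈ Pool.Agent.X215.RelCof.I, ∃ B ∈ ℬ, A ⊆ B) ∧ #ℬ = κ}.Nonempty :=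
        ⟨_, Pool.Agent.X215.RelCof.I, subset_rfl, fun A hA => ⟨A, hA, subset_rfl⟩, rfl⟩
      apply le_csInf hne
      rintro κ ⟨ℬ, hℬI, hℬ, rfl⟩
      by_contra hlt
      rw [not_le] at hlt
      have hcov : (Set.univ : Set Pool.Agent.X215.StatFilters.X) ⊆
          ⋃ B : ℬ, {x | E x ⊆ (B : Set ℕ)} := by
        intro x _
        obtain ⟨B, hB, hxB⟩ := hℬ (E x) (E_mem_I x)
        exact Set.mem_iUnion.2 ⟨⟨B, hB⟩, hxB⟩
      have h1 : #(⋃ B : ℬ, {x | E x ⊆ (B : Set ℕ)} : Set _) ≤ #ℬ * ℵ₀ := by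
        refine (mk_iUnion_le _).trans ?_
        apply mul_le_mul' le_rfl
        apply ciSup_le'
        intro B
        rw [le_aleph0_iff_set_countable]
        exact countable_below (hℬI B.2)
      have h2 := mk_le_mk_of_subset hcov
      rw [mk_univ] at h2
      have h3 : #Pool.Agent.X215.StatFilters.X = 𝔠 := by
        show #(ℕ → ℕ) = 𝔠
        simp
      rw [h3] at h2
      exact absurd (h2.trans h1) (not_le.2 (mul_lt_of_lt aleph0_le_continuum hlt
        aleph0_lt_continuum))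
  · -- the relative cofinality
    have hmem : ℵ₁ ∈ {κ | ∃ 𝒜 : Set (Set ℕ), 𝒜 ⊆ Pool.Agent.X215.RelCof.I ∧
        (∀ A ∈ Pool.Agent.X215.RelCof.I, ∃ B ∈ 𝒜, A \ B ∈ Jd) ∧ #𝒜 = κ} := by
      have hcof : ∀ A ∈ Pool.Agent.X215.RelCof.I,
          ∃ B ∈ Set.range (fun a : Ω => E (w a)), A \ B ∈ Jd := by
        intro A hA
        obtain ⟨a, ha⟩ := cofinal_E hA
        exact ⟨_, ⟨a, rfl⟩, ha⟩
      have hsub : Set.range (fun a : Ω => E (w a)) ⊆ Pool.Agent.X215.RelCof.I := by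
        rintro _ ⟨a, rfl⟩
        exact E_mem_I _
      refine ⟨_, hsub, hcof, ?_⟩
      apply le_antisymm
      · exact mk_range_le.trans (le_of_eq mk_Ω)
      · rw [← succ_aleph0]
        apply Order.succ_le_of_lt
        by_contra hle
        rw [not_lt, le_aleph0_iff_set_countable] at hle
        obtain ⟨A, hA, hA2⟩ := not_countable_cofinal hsub hle
        obtain ⟨B, hB, hB2⟩ := hcof A hA
        exact hA2 B hB hB2
    apply le_antisymm
    · exact csInf_le' hmem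
    · apply le_csInf ⟨_, hmem⟩
      rintro κ ⟨𝒜, h𝒜I, h𝒜, rfl⟩
      rw [← succ_aleph0]
      apply Order.succ_le_of_lt
      by_contra hle
      rw [not_lt, le_aleph0_iff_set_countable] at hle
      obtain ⟨A, hA, hA2⟩ := not_countable_cofinal h𝒜I hle
      obtain ⟨B, hB, hB2⟩ := h𝒜 A hA
      exact hA2 B hB hB2

end Pool.Agent.Results.MP_f21612_lc.MaximalIdeal
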